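import Mathlib
import Pool.Agent.Helper18SC.Second

/-!
MP_48d34c_nt, Q1: the two supercongruences modulo `p ^ 8` hold for every prime `p ≠ 2, 5`.
-/

set_option autoImplicit false

namespace Pool.Agent.Results.MP_48d34c_nt.Supercongruences

open Finset Pool.Agent.R440 Pool.Agent.Helper18SC

/-- `a ≡ b (mod p ^ m)` for rational numbers `a`, `b` whose denominators are prime to `p`: the
number `(a - b) / p ^ m` has denominator prime to `p`. -/
def CongrMod (p m : ℕ) (a b : ℚ) : Prop :=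
  ¬ p ∣ a.den ∧ ¬ p ∣ b.den ∧ ¬ p ∣ ((a - b) / (p : ℚ) ^ m).den

theorem den_of_mem {p : ℕ} [hp : Fact p.Prime] {x : ℚ} (h : x ∈ Zp p) : ¬ p ∣ x.den := by
  intro hd
  have hx : x ≠ 0 := by
    rintro rfl
    exact hp.out.one_lt.ne' (Nat.dvd_one.1 (by simpa using hd))
  have h1 := (mem_Zp_iff hx).1 h
  rw [padicValRat_def] at h1
  have h2 : ¬ (p : ℤ) ∣ x.num := by
    intro hn
    have h3 : p ∣ x.num.natAbs := Int.natCast_dvd.1 hn
    have := Nat.dvd_gcd h3 hd
    rw [x.reduced.gcd_eq_one] at this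
    exact hp.out.one_lt.ne' (Nat.dvd_one.1 this)
  rw [padicValInt.eq_zero_of_not_dvd h2] at h1
  have h3 : 1 ≤ padicValNat p x.den := one_le_padicValNat_of_dvd x.den_nz hd
  omega

theorem of_cg {p m : ℕ} [hp : Fact p.Prime] {a b : ℚ} (h : Cg p m a b) (hb : b ∈ Zp p) :
    CongrMod p m a b := by
  obtain ⟨z, hz, e⟩ := h
  have ha : a ∈ Zp p := by
    rw [show a = b + (p : ℚ) ^ m * z by rw [← e]; ring]
    exact add_mem hb (mul_mem (pow_mem p_mem _) hz)
  refine ⟨den_of_mem ha, den_of_mem hb, ?_⟩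
  have : (a - b) / (p : ℚ) ^ m = z := by
    rw [e]
    exact mul_div_cancel_left₀ z (pow_ne_zero _ p_ne)
  rw [this]
  exact den_of_mem hz

/-- **MP_48d34c_nt, Q1.** For every prime `p ≠ 2, 5`, both supercongruences hold. -/
theorem result (p : ℕ) [Fact p.Prime] (h2 : p ≠ 2) (h5 : p ≠ 5) :
    CongrMod p 8
      (∑ k ∈ range p, (21 * (k : ℚ) ^ 3 + 22 * k ^ 2 + 8 * k + 1) / 256 ^ k *
        (Nat.choose (2 * k) k : ℚ) ^ 7) ((p : ℚ) ^ 3) ∧
    CongrMod p 8
      (∑ k ∈ range ((p - 1) / 2 + 1), (168 * (k : ℚ) ^ 3 + 76 * k ^ 2 + 14 * k + 1) /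
        2 ^ (20 * k) * (Nat.choose (2 * k) k : ℚ) ^ 7)
      ((legendreSym p (-1) : ℚ) * (p : ℚ) ^ 3) := by
  have hp : p.Prime := Fact.out
  have hodd : p % 2 = 1 := hp.eq_two_or_odd.resolve_left h2
  have hl : (legendreSym p (-1) : ℚ) = (-1) ^ (p / 2) := by
    rw [legendreSym.at_neg_one h2, ZMod.χ₄_eq_neg_one_pow hodd]
    push_cast
    rfl
  have m1 : ∀ n : ℕ, ((-1 : ℚ)) ^ n ∈ Zp p := fun n => pow_mem (neg_mem (one_mem _)) _
  by_cases h3 : p = 3
  · subst h3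
    rw [hl]
    constructor
    · refine of_cg ⟨91 / 512, ?_, ?_⟩ (pow_mem p_mem _)
      · rw [show (91 / 512 : ℚ) = (91 : ℕ) * (1 / ((512 : ℕ) : ℚ)) by norm_num]
        exact mul_mem (natCast_mem_Zp _) (inv_nat_mem_Zp (by norm_num))
      · norm_num [Finset.sum_range_succ, Nat.choose]
    · refine of_cg ⟨35 / 8192, ?_, ?_⟩ (mul_mem (m1 _) (pow_mem p_mem _))
      · rw [show (35 / 8192 : ℚ) = (35 : ℕ) * (1 / ((8192 : ℕ) : ℚ)) by norm_num]
        exact mul_mem (natCast_mem_Zp _) (inv_nat_mem_Zp (by norm_num))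
      · norm_num [Finset.sum_range_succ, Nat.choose]
  · have h7 : 7 ≤ p := by
      by_contra hc
      have h6 : p < 7 := by omega
      interval_cases p <;> first | omega | exact absurd hp (by norm_num)
    obtain ⟨h, e⟩ : ∃ h, p = 2 * h + 1 := ⟨p / 2, by omega⟩
    have e1 : (p - 1) / 2 = h := by omega
    have e2 : p / 2 = h := by omega
    rw [hl, e1, e2]
    exact ⟨of_cg (first e h7) (pow_mem p_mem _),
      of_cg (second e h7) (mul_mem (m1 _) (pow_mem p_mem _))⟩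

end Pool.Agent.Results.MP_48d34c_nt.Supercongruences
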